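import Pool.Agent.T2H58.LR.Mo

set_option autoImplicit false

/-!
# The terms of linear recurrences in the exceptional sets of Möller's maps

Let `gcd(m, d) = 1`, `2 ≤ m ≤ d^(d/(d-1))`, and let `u` be a sequence of integers with
`u (n + k + 1) = c_0 u n + ... + c_k u (n + k)` for all `n`, where the integer `c_0` is coprime to `d`, which is
not constant on any arithmetic progression (for example `u n = b a ^ n + c` with `|a| ≥ 2`, `b ≠ 0`,
`gcd(a, d) = 1`, the Fibonacci numbers, for all `d`, or the values of a non-constant polynomial).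

Every interval of length `Y ≥ 1` contains at most `K Y^(1 - δ)` indices `n` for which `u n` is in the
exceptional set `E(d, m, R)`. For all but `K Y^(1 - δ)` of the indices of an interval of length `Y` the
`H`-orbit of `u n` (if `u n` is positive and not divisible by `d`) has a positive term `≤ u n Y^(-κ + ε)`,
`κ = 1 - (d - 1) / d * log_d m`, and the first `log_d Y` terms of the `T`-orbit of `u n` have the size
`d ^ (-κ j) |u n|` up to factors `Y ^ ε`.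

Method. Large deviations for the residues modulo `d` of the first `N` terms of the `T`-orbit, and the
spread of the values of `u` modulo `d^N`. For a prime `p` dividing `d`, `u (n + L p^j) - u n = p^(j+2) h_j(n)`
for all `n` with some `L`; if `p^(j+1)` does not divide `h_j(n)` and `p^N` divides `u (n + L p^j t) - u n`, then
`p^N` divides `p^(2j+2) t`; and `p^(j+1)` divides `h_j(n)` for few `n` only, by a determinant-free argument with
divided differences of the `p`-adic Newton series of `h_j` on the classes modulo `L`, uniform in `j`.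
-/

namespace Pool.Agent.Results.MP_fd8838_nt.RecurrenceExceptional

open Pool.Agent.T2H58.LR Pool.Agent.Y927.GP

/-- The generalised Hasse-Syracuse map `H(x) = (m x - r_j) / d ^ a(x)`, where `j` is the residue of
`x` modulo `d` and `d ^ a(x)` is the largest power of `d` dividing `m x - r_j`. -/
noncomputable def H (d m : ℕ) (r : ℤ → ℤ) (x : ℤ) : ℤ :=
  (m * x - r (x % d)) / (d : ℤ) ^ multiplicity (d : ℤ) (m * x - r (x % d))

/-- The map `T(x) = (m x - r_j) / d` for `x ≡ j` modulo `d`, `1 ≤ j ≤ d - 1`, and `T(x) = x / d` if `d` divides `x`. -/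
def T (d m : ℕ) (r : ℤ → ℤ) (x : ℤ) : ℤ := if x % d = 0 then x / d else (m * x - r (x % d)) / d

/-- The iterate `H^k(y)` is defined: the orbit does not stop before (it stops at `z` if
`m z ≤ r_j`, where `z ≡ j` modulo `d`). -/
def Defined (d m : ℕ) (r : ℤ → ℤ) (y : ℤ) (k : ℕ) : Prop :=
  ∀ i < k, r ((H d m r)^[i] y % d) < m * (H d m r)^[i] y

/-- The exceptional set `E(d, m, R)`: the positive integers `n` not divisible by `d` such that
`H^k(n) ≥ n` for all `k ≥ 1` for which `H^k(n)` is defined. -/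
def E (d m : ℕ) (r : ℤ → ℤ) : Set ℤ :=
  {n | 0 < n ∧ ¬ (d : ℤ) ∣ n ∧ ∀ k, 1 ≤ k → Defined d m r n k → n ≤ (H d m r)^[k] n}

/-- `κ = 1 - (d - 1) / d * log m / log d`, a number with `0 < κ < 1` if `2 ≤ m ≤ d^(d/(d-1))`. -/
noncomputable def kappa (d m : ℕ) : ℝ := 1 - ((d : ℝ) - 1) / d * (Real.log m / Real.log d)

theorem H_eq (d m : ℕ) (r : ℤ → ℤ) : H d m r = Mo.H d m r := rfl

theorem T_eq (d m : ℕ) (r : ℤ → ℤ) : T d m r = Mo.T d m r := rfl

theorem E_eq (d m : ℕ) (r : ℤ → ℤ) : E d m r = Mo.E d m r := rfl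

theorem kappa_eq (d m : ℕ) : kappa d m = Mo.kap d m := rfl

theorem ncard_nat {P : ℕ → Prop} {X : ℕ} {Y K : ℝ} (hY : 0 ≤ Y)
    (h : ∀ A : Finset ℕ, A ⊆ Finset.Ioc X (X + ⌊Y⌋₊) → (∀ n ∈ A, P n) → (A.card : ℝ) ≤ K) :
    ({n : ℕ | X < n ∧ (n : ℝ) ≤ X + Y ∧ P n}.ncard : ℝ) ≤ K := by
  classical
  have hsub : ∀ n : ℕ, X < n → (n : ℝ) ≤ X + Y → n ∈ Finset.Ioc X (X + ⌊Y⌋₊) := by
    intro n h1 h2
    rw [Finset.mem_Ioc]
    refine ⟨h1, ?_⟩
    have h3 : ((n - X : ℕ) : ℝ) ≤ Y := by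
      rw [Nat.cast_sub h1.le]
      linarith
    have h5 : n - X ≤ ⌊Y⌋₊ := Nat.le_floor h3
    omega
  have hfin : {n : ℕ | X < n ∧ (n : ℝ) ≤ X + Y ∧ P n}.Finite := by
    apply (Finset.finite_toSet (Finset.Ioc X (X + ⌊Y⌋₊))).subset
    rintro n ⟨h1, h2, -⟩
    exact hsub n h1 h2
  rw [Set.ncard_eq_toFinset_card _ hfin]
  apply h
  · intro n hn
    rw [Set.Finite.mem_toFinset] at hn
    exact hsub n hn.1 hn.2.1
  · intro n hn
    rw [Set.Finite.mem_toFinset] at hn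
    exact hn.2.2

/-- **Main theorem.** Let `gcd(m, d) = 1`, `2 ≤ m ≤ d^(d/(d-1))`, let `R` be admissible and let `u` be a sequence of
integers with `u (n + k + 1) = ∑_{i ≤ k} c_i u (n + i)` for all `n`, where `c_0` is coprime to `d`, which is not
constant on any arithmetic progression.
1. There are `δ, K > 0` such that every interval `(X, X + Y]`, `Y ≥ 1`, contains at most `K Y^(1 - δ)`
indices `n` with `u n ∈ E(d, m, R)`.
2. For every `ε > 0` there are `δ, K > 0` such that for all but at most `K Y^(1 - δ)` of the indices `n` of every interval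
`(X, X + Y]`, `Y ≥ 1`, for which `u n` is positive and not divisible by `d`, the `H`-orbit of `u n` has a term
`0 < H^k(u n) ≤ u n Y^(-κ + ε)`.
3. For every `ε > 0` there are `δ, K > 0` such that for all but at most `K Y^(1 - δ)` of the indices `n` of every interval
`(X, X + Y]`, `Y ≥ 1`, one has `Y^(-ε) d^(-κ j) |u n| ≤ |T^j(u n)| ≤ Y^ε d^(-κ j) |u n|` for all `j` with `d^j ≤ Y`. -/
theorem result (d m : ℕ) (hd : 2 ≤ d) (hm : 2 ≤ m) (hc : Nat.Coprime m d)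
    (hle : (m : ℝ) ≤ (d : ℝ) ^ ((d : ℝ) / ((d : ℝ) - 1))) (r : ℤ → ℤ)
    (hr : ∀ j : ℤ, 1 ≤ j → j < d → r j ≡ m * j [ZMOD d])
    (k : ℕ) (c : Fin (k + 1) → ℤ) (u : ℕ → ℤ) (hu : ∀ n, u (n + (k + 1)) = ∑ i : Fin (k + 1), c i * u (n + i))
    (hc0 : IsCoprime (c 0) (d : ℤ)) (hnc : ∀ s L : ℕ, 1 ≤ L → ∃ n, u (s + L * n) ≠ u s) :
    (∃ δ K : ℝ, 0 < δ ∧ 0 < K ∧ ∀ (X : ℕ) (Y : ℝ), 1 ≤ Y →
      ({n : ℕ | X < n ∧ (n : ℝ) ≤ X + Y ∧ u n ∈ E d m r}.ncard : ℝ) ≤ K * Y ^ (1 - δ)) ∧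
    (∀ ε : ℝ, 0 < ε → ∃ δ K : ℝ, 0 < δ ∧ 0 < K ∧ ∀ (X : ℕ) (Y : ℝ), 1 ≤ Y →
      ({n : ℕ | X < n ∧ (n : ℝ) ≤ X + Y ∧ (0 < u n ∧ ¬ (d : ℤ) ∣ u n ∧
        ¬ ∃ k : ℕ, Defined d m r (u n) k ∧ 0 < (H d m r)^[k] (u n) ∧
          (((H d m r)^[k] (u n) : ℤ) : ℝ) ≤ u n * Y ^ (-kappa d m + ε))}.ncard : ℝ) ≤ K * Y ^ (1 - δ)) ∧
    (∀ ε : ℝ, 0 < ε → ∃ δ K : ℝ, 0 < δ ∧ 0 < K ∧ ∀ (X : ℕ) (Y : ℝ), 1 ≤ Y →
      ({n : ℕ | X < n ∧ (n : ℝ) ≤ X + Y ∧ ¬ ∀ j : ℕ, (d : ℝ) ^ j ≤ Y →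
        Y ^ (-ε) * (d : ℝ) ^ (-kappa d m * j) * |(u n : ℝ)| ≤ |(((T d m r)^[j] (u n) : ℤ) : ℝ)| ∧
        |(((T d m r)^[j] (u n) : ℤ) : ℝ)| ≤ Y ^ ε * (d : ℝ) ^ (-kappa d m * j) * |(u n : ℝ)|}.ncard : ℝ) ≤
          K * Y ^ (1 - δ)) := by
  classical
  have hr' : ∀ j : ℤ, 1 ≤ j → j < d → (d : ℤ) ∣ m * j - r j := fun j h1 h2 => (hr j h1 h2).dvd
  have hS : Spr d u := spr_rec hd k c u hu hc0 hnc
  refine ⟨?_, fun ε hε => ?_, fun ε hε => ?_⟩
  · obtain ⟨δ, K, hδ, hK, h⟩ := exc_seq hd hm hc hle hr' hS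
    exact ⟨δ, K, hδ, hK, fun X Y hY => ncard_nat (P := fun n : ℕ => u n ∈ E d m r) (by linarith)
      (fun A hA hE => h X Y hY A hA hE)⟩
  · obtain ⟨δ, K, hδ, hK, h⟩ := desc_seq hd hm hc hle hr' hS hε
    refine ⟨δ, K, hδ, hK, fun X Y hY => ncard_nat (P := fun n : ℕ => 0 < u n ∧ ¬ (d : ℤ) ∣ u n ∧
        ¬ ∃ k : ℕ, Defined d m r (u n) k ∧ 0 < (H d m r)^[k] (u n) ∧
          (((H d m r)^[k] (u n) : ℤ) : ℝ) ≤ u n * Y ^ (-kappa d m + ε)) (by linarith)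
      (fun A hA hE => h X Y hY A hA ?_)⟩
    intro n hn
    obtain ⟨h1, h2, h3⟩ := hE n hn
    refine ⟨h1, h2, fun k hk1 hk2 => ?_⟩
    by_contra hcon
    push Not at hcon
    exact h3 ⟨k, hk1, hk2, hcon⟩
  · obtain ⟨hκ0, hκ1⟩ := Mo.kap_bounds hd hm hc hle
    have D := Mo.data (r := r) hd hc hr'
    have hC := Mo.cls (m := m) (r := r) hd
    have hmu := Mo.mu_kap hd D
    have hd0 : (0 : ℝ) < d := by exact_mod_cast (by omega : 0 < d)
    obtain ⟨δ, K, hδ, -, hK, h⟩ := law_main (Pool.Agent.H319R2.Leigh.gm_fac D) (Pool.Agent.H319R2.Leigh.gm_cls D hC)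
      (f := u) hS hκ0.le (by rw [hmu]; linarith) hκ1 hε
    refine ⟨δ, K, hδ, hK, fun X Y hY => ncard_nat (by linarith) (fun A hA hE => h X Y hY A hA ?_)⟩
    intro n hn
    refine ⟨Mo.mem_S hd _, fun htyp => hE n hn fun j hj => ?_⟩
    have h1 := htyp j hj
    have hTT : (Pool.Agent.H319R2.Leigh.gm D).T = T d m r := by rw [Pool.Agent.H319R2.Leigh.gm_T, Mo.T_eq, T_eq]
    rw [hmu, hTT] at h1
    have hexp : Real.exp (j * (-Mo.kap d m * Real.log (Pool.Agent.H319R2.Leigh.gm D).d)) =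
        (d : ℝ) ^ (-kappa d m * j) := by
      rw [kappa_eq, Real.rpow_def_of_pos hd0]
      congr 1
      have : ((Pool.Agent.H319R2.Leigh.gm D).d : ℝ) = d := rfl
      rw [this]
      ring
    rw [hexp] at h1
    exact h1

end Pool.Agent.Results.MP_fd8838_nt.RecurrenceExceptional
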