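import Pool.Agent.T2H58.LU.Mo
import Pool.Agent.T2H58.LU.Exp2

set_option autoImplicit false

/-!
# Sums of `S`-units in the exceptional sets of Möller's maps

Let `gcd(m, d) = 1`, `2 ≤ m ≤ d^(d/(d-1))`, and let `a_{i t}` be integers coprime to `d`. We consider the integers
`u(n) = C + ∑_i b_i ∏_t a_{i t} ^ n_t` for the exponent vectors `n` of an arbitrary box, with arbitrary integers `b_i`, `C`.
Choose one of the exponents, `n_j`, and let `I` be the set of the `i` with `a_{i j} ≠ 1`. If `|a_{i j}| ≥ 2` for `i ∈ I` and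
these numbers are distinct, then `u(n)` is in the exceptional set `E(d, m, R)` only for a proportion `K 2^s Q_j^(-δ)` of the
exponent vectors `n` of a box with the side lengths `Q_t`. The numbers `δ`, `K` depend on `d, m, R` and the `a_{i t}`, but
neither on the box nor on the coefficients `b_i` and `C`; here `s` is such that no `p ^ (s + 1)`, `p` a prime divisor of
`d`, divides all `b_i` with `i ∈ I`. So the translates of groups of `S`-units (for `d` coprime to `15` the integers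
`b 3^x 5^y + c`, only `O(log^2 X)` of them up to `X`), sums of `S`-units as `3^x 5^y + 7^x 11^z + c`, and the integers with
few nonzero digits in a base coprime to `d` are almost never exceptional, in all boxes of exponents.

Method. Large deviations for the residues modulo `d` of the first `N` terms of the `T`-orbit, and the spread of the values
of `u` modulo `d^N`, uniformly in the `b_i` and `C`: the coefficients of the `p`-adic Newton series of
`∑ b_i a_i^(s + L m)` are `∑ b_i a_i^s D_i^k` with `D_i = (a_i^L - 1) / p^2`; they satisfy a linear recurrence of order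
equal to the number of terms, and the smallest of their `p`-adic valuations is bounded by that of a product of differences
of the `D_i`.
-/

namespace Pool.Agent.Results.MP_fd8838_nt.SUnitSums

open Finset
open Pool.Agent.T2H58.LU Pool.Agent.Y927.GP

/-- The generalised Hasse-Syracuse map `H(x) = (m x - r_j) / d ^ a(x)`, where `j` is the residue of
`x` modulo `d` and `d ^ a(x)` is the largest power of `d` dividing `m x - r_j`. -/
noncomputable def H (d m : ℕ) (r : ℤ → ℤ) (x : ℤ) : ℤ :=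
  (m * x - r (x % d)) / (d : ℤ) ^ multiplicity (d : ℤ) (m * x - r (x % d))

/-- The map `T(x) = (m x - r_j) / d` for `x ≡ j` modulo `d`, `1 ≤ j ≤ d - 1`, and `T(x) = x / d` if `d` divides `x`. -/
def T (d m : ℕ) (r : ℤ → ℤ) (x : ℤ) : ℤ := if x % d = 0 then x / d else (m * x - r (x % d)) / d

/-- The iterate `H^k(y)` is defined: the orbit does not stop before (it stops at `z` if
`m z ≤ r_j`, where `z ≡ j` modulo `d`). -/
def Defined (d m : ℕ) (r : ℤ → ℤ) (y : ℤ) (k : ℕ) : Prop :=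
  ∀ i < k, r ((H d m r)^[i] y % d) < m * (H d m r)^[i] y

/-- The exceptional set `E(d, m, R)`: the positive integers `n` not divisible by `d` such that
`H^k(n) ≥ n` for all `k ≥ 1` for which `H^k(n)` is defined. -/
def E (d m : ℕ) (r : ℤ → ℤ) : Set ℤ :=
  {n | 0 < n ∧ ¬ (d : ℤ) ∣ n ∧ ∀ k, 1 ≤ k → Defined d m r n k → n ≤ (H d m r)^[k] n}

/-- `κ = 1 - (d - 1) / d * log m / log d`, a number with `0 < κ < 1` if `2 ≤ m ≤ d^(d/(d-1))`. -/
noncomputable def kappa (d m : ℕ) : ℝ := 1 - ((d : ℝ) - 1) / d * (Real.log m / Real.log d)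

/-- The integer `C + ∑_i b_i ∏_l a_{i l} ^ n_l`. -/
def value {k l : ℕ} (a : Fin k → Fin l → ℤ) (b : Fin k → ℤ) (C : ℤ) (n : Fin l → ℕ) : ℤ :=
  C + ∑ i, b i * ∏ t, a i t ^ n t

/-- The number of the exponent vectors `n` of the box `∏ (X_t, X_t + Q_t]` with the property `P`. -/
noncomputable def count {l : ℕ} (X Q : Fin l → ℕ) (P : (Fin l → ℕ) → Prop) : ℕ :=
  {n : Fin l → ℕ | (∀ t, X t < n t ∧ n t ≤ X t + Q t) ∧ P n}.ncard

/-- For every prime divisor `p` of `d` some `b_i` with `i ∈ I` is not divisible by `p ^ (s + 1)`. -/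
def Prim (d s : ℕ) {k : ℕ} (I : Fin k → Prop) (b : Fin k → ℤ) : Prop :=
  ∀ p : ℕ, p.Prime → p ∣ d → ∃ i, I i ∧ ¬ (p : ℤ) ^ (s + 1) ∣ b i

theorem H_eq (d m : ℕ) (r : ℤ → ℤ) : H d m r = Mo.H d m r := rfl

theorem T_eq (d m : ℕ) (r : ℤ → ℤ) : T d m r = Mo.T d m r := rfl

theorem E_eq (d m : ℕ) (r : ℤ → ℤ) : E d m r = Mo.E d m r := rfl

theorem kappa_eq (d m : ℕ) : kappa d m = Mo.kap d m := rfl

theorem box_count {l : ℕ} (t0 : Fin l) (X Q : Fin l → ℕ) (S : Finset (Fin l → ℕ))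
    (hS : S ⊆ Fintype.piFinset fun t => Ioc (X t) (X t + Q t)) {M : ℝ}
    (hM : ∀ v : Fin l → ℕ, ∀ A : Finset ℕ, A ⊆ Ioc (X t0) (X t0 + Q t0) → (∀ x ∈ A, Function.update v t0 x ∈ S) →
      (A.card : ℝ) ≤ M) : (S.card : ℝ) ≤ M * ∏ t ∈ univ.erase t0, (Q t : ℝ) := by
  classical
  obtain ⟨g, hg⟩ : ∃ g : (Fin l → ℕ) → (Fin l → ℕ), g = fun n => Function.update n t0 0 := ⟨_, rfl⟩
  have hM0 : 0 ≤ M := by
    have := hM 0 ∅ (empty_subset _) (by simp)
    simpa using this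
  have h1 : (S.card : ℝ) = ∑ v ∈ S.image g, ((S.filter (fun n => g n = v)).card : ℝ) := by
    have := card_eq_sum_card_image g S
    rw [this]
    push_cast
    rfl
  have h2 : ∀ v ∈ S.image g, ((S.filter (fun n => g n = v)).card : ℝ) ≤ M := by
    intro v _
    have hrec : ∀ n ∈ S.filter (fun n => g n = v), Function.update v t0 (n t0) = n := by
      intro n hn
      rw [mem_filter] at hn
      rw [← hn.2, hg]
      simp
    have h3 : ((S.filter (fun n => g n = v)).image (fun n => n t0)).card = (S.filter (fun n => g n = v)).card := by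
      apply card_image_of_injOn
      intro n hn n' hn' h
      simp only at h
      rw [← hrec n hn, ← hrec n' hn', h]
    rw [← h3]
    apply hM v
    · intro x hx
      rw [mem_image] at hx
      obtain ⟨n, hn, rfl⟩ := hx
      exact Fintype.mem_piFinset.1 (hS (mem_filter.1 hn).1) t0
    · intro x hx
      rw [mem_image] at hx
      obtain ⟨n, hn, rfl⟩ := hx
      rw [hrec n hn]
      exact (mem_filter.1 hn).1
  have h3 : ((S.image g).card : ℝ) ≤ ∏ t ∈ univ.erase t0, (Q t : ℝ) := by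
    have h4 : S.image g ⊆ Fintype.piFinset fun t => if t = t0 then {0} else Ioc (X t) (X t + Q t) := by
      intro v hv
      rw [mem_image] at hv
      obtain ⟨n, hn, rfl⟩ := hv
      rw [Fintype.mem_piFinset]
      intro t
      rw [hg]
      by_cases ht : t = t0
      · subst ht; simp
      · simp only [ht, if_false]
        rw [Function.update_of_ne ht]
        exact Fintype.mem_piFinset.1 (hS hn) t
    have h5 := card_le_card h4
    rw [Fintype.card_piFinset] at h5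
    have h6 : ∏ t, (if t = t0 then ({0} : Finset ℕ) else Ioc (X t) (X t + Q t)).card = ∏ t ∈ univ.erase t0, Q t := by
      rw [← Finset.mul_prod_erase univ _ (mem_univ t0)]
      simp only [if_true, card_singleton, one_mul]
      apply prod_congr rfl
      intro t ht
      rw [if_neg (ne_of_mem_erase ht), Nat.card_Ioc]
      omega
    rw [h6] at h5
    exact_mod_cast h5
  rw [h1]
  calc ∑ v ∈ S.image g, ((S.filter (fun n => g n = v)).card : ℝ) ≤ ∑ v ∈ S.image g, M := sum_le_sum h2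
    _ = M * (S.image g).card := by rw [sum_const, nsmul_eq_mul, mul_comm]
    _ ≤ _ := mul_le_mul_of_nonneg_left h3 hM0

theorem spread {d : ℕ} (hd : 2 ≤ d) {k l : ℕ} (a : Fin k → Fin l → ℤ) (ha : ∀ i t, IsCoprime (a i t) (d : ℤ)) (t0 : Fin l)
    (h2 : ∀ i, a i t0 = 1 ∨ 2 ≤ |a i t0|) (hne : ∀ i i', i ≠ i' → a i t0 ≠ 1 → |a i t0| ≠ |a i' t0|) :
    ∃ c : ℕ, 1 ≤ c ∧ ∀ (s : ℕ) (b : Fin k → ℤ) (C : ℤ), Prim d s (fun i => a i t0 ≠ 1) b → ∀ v : Fin l → ℕ,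
      SprU d c (2 ^ (s + 1)) (fun x => value a b C (Function.update v t0 x)) := by
  classical
  have hndvd : ∀ p : ℕ, p.Prime → p ∣ d → ∀ i t, ¬ (p : ℤ) ∣ a i t := by
    intro p hp hpd i t h
    have h1 : IsUnit (p : ℤ) := (ha i t).isUnit_of_dvd' h (by exact_mod_cast hpd)
    rw [Int.isUnit_iff] at h1
    have := hp.two_le
    omega
  obtain ⟨κ, ⟨e⟩⟩ : ∃ κ, Nonempty ({i : Fin k // a i t0 ≠ 1} ≃ Fin κ) := ⟨_, ⟨Fintype.equivFin _⟩⟩
  have h' : ∀ p : ℕ, ∃ L c : ℕ, 1 ≤ L ∧ 1 ≤ c ∧ (p.Prime → p ∣ d → ∀ (s : ℕ) (b : Fin κ → ℤ) (C : ℤ),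
      (∃ i, ¬ (p : ℤ) ^ (s + 1) ∣ b i) → LocU p L c (2 ^ (s + 1)) (fun n => C + ∑ i, b i * a (e.symm i).1 t0 ^ n)) := by
    intro p
    by_cases hp : p.Prime ∧ p ∣ d
    · have : Fact p.Prime := ⟨hp.1⟩
      obtain ⟨L, c, hL, hc, h⟩ := loc_exp' p (fun i => a (e.symm i).1 t0) (fun i => hndvd p hp.1 hp.2 _ t0)
        (fun i => (h2 _).resolve_left (e.symm i).2) (fun i i' hii => hne _ _ (by
          intro h3
          exact hii (e.symm.injective (Subtype.ext h3))) (e.symm i).2)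
      exact ⟨L, c, hL, hc, fun _ _ => h⟩
    · exact ⟨1, 1, le_rfl, le_rfl, fun h1 h2 => absurd ⟨h1, h2⟩ hp⟩
  choose L c hL hc hloc using h'
  obtain ⟨c', hc', h⟩ := spr_of_loc hd L c hL hc
  refine ⟨c', hc', fun s b C hb v => h (2 ^ (s + 1)) _ Nat.one_le_two_pow fun p hp hpd => ?_⟩
  obtain ⟨i0, hi1, hi0⟩ := hb p hp hpd
  obtain ⟨w, hw⟩ : ∃ w : Fin k → ℤ, w = fun i => b i * ∏ t ∈ univ.erase t0, a i t ^ v t := ⟨_, rfl⟩
  have h3 := hloc p hp hpd s (fun i => w (e.symm i).1)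
    (C + ∑ i : {i : Fin k // ¬ a i t0 ≠ 1}, w i.1) ⟨e ⟨i0, hi1⟩, by
    intro h4
    apply hi0
    simp only [Equiv.symm_apply_apply, hw] at h4
    have h5 : IsCoprime ((p : ℤ) ^ (s + 1)) (∏ t ∈ univ.erase t0, a i0 t ^ v t) := by
      apply IsCoprime.prod_right
      intro t _
      exact ((Nat.prime_iff_prime_int.1 hp).coprime_iff_not_dvd.2 (hndvd p hp hpd i0 t)).pow
    exact h5.dvd_of_dvd_mul_right h4⟩
  have e2 : (fun n : ℕ => C + ∑ i : {i : Fin k // ¬ a i t0 ≠ 1}, w i.1 + ∑ i, w (e.symm i).1 * a (e.symm i).1 t0 ^ n) =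
      fun x => value a b C (Function.update v t0 x) := by
    funext x
    unfold value
    have h7 : ∑ i, w (e.symm i).1 * a (e.symm i).1 t0 ^ x = ∑ i : {i : Fin k // a i t0 ≠ 1}, w i.1 * a i.1 t0 ^ x :=
      Equiv.sum_comp e.symm (fun i : {i : Fin k // a i t0 ≠ 1} => w i.1 * a i.1 t0 ^ x)
    have h8 : ∑ i : {i : Fin k // ¬ a i t0 ≠ 1}, w i.1 = ∑ i : {i : Fin k // ¬ a i t0 ≠ 1}, w i.1 * a i.1 t0 ^ x := by
      apply sum_congr rfl
      intro i _
      have : a i.1 t0 = 1 := not_ne_iff.1 i.2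
      rw [this, one_pow, mul_one]
    rw [h7, h8, add_assoc, add_comm (∑ i : {i : Fin k // ¬ a i t0 ≠ 1}, w i.1 * a i.1 t0 ^ x),
      Fintype.sum_subtype_add_sum_subtype (fun i => a i t0 ≠ 1) (fun i => w i * a i t0 ^ x)]
    congr 1
    apply sum_congr rfl
    intro i _
    rw [← Finset.mul_prod_erase univ (fun t => a i t ^ (Function.update v t0 x) t) (mem_univ t0), Function.update_self]
    have h6 : ∏ t ∈ univ.erase t0, a i t ^ (Function.update v t0 x) t = ∏ t ∈ univ.erase t0, a i t ^ v t := by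
      apply prod_congr rfl
      intro t ht
      rw [Function.update_of_ne (ne_of_mem_erase ht)]
    rw [h6, hw]
    ring
  rw [← e2]
  exact h3

theorem count_le {d : ℕ} {k l : ℕ} (a : Fin k → Fin l → ℤ) (t0 : Fin l) {c : ℕ} {P : ℝ → ℤ → Prop}
    (hS : ∀ (s : ℕ) (b : Fin k → ℤ) (C : ℤ), Prim d s (fun i => a i t0 ≠ 1) b → ∀ v : Fin l → ℕ,
      SprU d c (2 ^ (s + 1)) (fun x => value a b C (Function.update v t0 x))) {δ K : ℝ}
    (h : ∀ (W : ℕ) (f : ℕ → ℤ), 1 ≤ W → SprU d c W f → ∀ (X : ℕ) (Y : ℝ), 1 ≤ Y → ∀ A : Finset ℕ,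
      A ⊆ Ioc X (X + ⌊Y⌋₊) → (∀ n ∈ A, P Y (f n)) → (A.card : ℝ) ≤ K * W * Y ^ (1 - δ))
    (s : ℕ) (b : Fin k → ℤ) (C : ℤ) (hb : Prim d s (fun i => a i t0 ≠ 1) b) (X Q : Fin l → ℕ) (hQ : 1 ≤ Q t0) :
    (count X Q (fun n => P (Q t0) (value a b C n)) : ℝ) ≤ 2 * K * 2 ^ s * (Q t0 : ℝ) ^ (-δ) * ∏ t, (Q t : ℝ) := by
  classical
  obtain ⟨S, hSdef⟩ : ∃ S, S = (Fintype.piFinset fun t => Ioc (X t) (X t + Q t)).filter
    (fun n => P (Q t0) (value a b C n)) := ⟨_, rfl⟩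
  have h1 : count X Q (fun n => P (Q t0) (value a b C n)) = S.card := by
    unfold count
    rw [← Set.ncard_coe_finset]
    congr 1
    ext n
    rw [hSdef, Set.mem_ofPred_eq, mem_coe, mem_filter, Fintype.mem_piFinset]
    simp only [mem_Ioc]
  rw [h1]
  have hQ1 : (1 : ℝ) ≤ Q t0 := by exact_mod_cast hQ
  have hQ0 : (0 : ℝ) < Q t0 := by linarith
  have h2 := box_count t0 X Q S (by rw [hSdef]; exact filter_subset _ _)
    (M := K * ((2 ^ (s + 1) : ℕ) : ℝ) * (Q t0 : ℝ) ^ (1 - δ)) (by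
      intro v A hA hAS
      apply h (2 ^ (s + 1)) _ Nat.one_le_two_pow (hS s b C hb v) (X t0) (Q t0) hQ1 A (by rwa [Nat.floor_natCast])
      intro x hx
      have := hAS x hx
      rw [hSdef, mem_filter] at this
      exact this.2)
  refine h2.trans (le_of_eq ?_)
  rw [← Finset.mul_prod_erase univ (fun t => (Q t : ℝ)) (mem_univ t0)]
  have h3 : (Q t0 : ℝ) ^ (1 - δ) = (Q t0 : ℝ) ^ (-δ) * Q t0 := by
    rw [sub_eq_neg_add, Real.rpow_add hQ0, Real.rpow_one]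
  rw [h3]
  push_cast
  ring

/-- **Main theorem.** Let `gcd(m, d) = 1`, `2 ≤ m ≤ d^(d/(d-1))`, let `R` be admissible, let `a_{i t}` (`i < k`, `t < l`) be
integers coprime to `d`, and let `t₀` be an index such that the numbers `|a_{i t₀}|` for the `i` with `a_{i t₀} ≠ 1` are at
least `2` and distinct. Let `u(n) = C + ∑_i b_i ∏_t a_{i t} ^ n_t`.
1. There are `δ, K > 0` such that for all `s`, all integers `b_i` such that no `p ^ (s + 1)`, `p` a prime divisor of `d`,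
divides all `b_i` with `a_{i t₀} ≠ 1`, all integers `C` and all boxes `∏ (X_t, X_t + Q_t]` with `Q_{t₀} ≥ 1`, at most
`K 2^s Q_{t₀}^(-δ) ∏ Q_t` exponent vectors `n` of the box satisfy `u(n) ∈ E(d, m, R)`.
2. For every `ε > 0` there are `δ, K > 0` such that for all these `s`, `b`, `C` and boxes, for all but at most
`K 2^s Q_{t₀}^(-δ) ∏ Q_t` of the `n` of the box for which `u(n)` is positive and not divisible by `d`, the `H`-orbit of
`u(n)` has a term `0 < H^j(u(n)) ≤ u(n) Q_{t₀}^(-κ + ε)`.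
3. For every `ε > 0` there are `δ, K > 0` such that for all these `s`, `b`, `C` and boxes, for all but at most
`K 2^s Q_{t₀}^(-δ) ∏ Q_t` of the `n` of the box,
`Q_{t₀}^(-ε) d^(-κ j) |u(n)| ≤ |T^j(u(n))| ≤ Q_{t₀}^ε d^(-κ j) |u(n)|` for all `j` with `d^j ≤ Q_{t₀}`. -/
theorem result (d m : ℕ) (hd : 2 ≤ d) (hm : 2 ≤ m) (hc : Nat.Coprime m d)
    (hle : (m : ℝ) ≤ (d : ℝ) ^ ((d : ℝ) / ((d : ℝ) - 1))) (r : ℤ → ℤ)
    (hr : ∀ j : ℤ, 1 ≤ j → j < d → r j ≡ m * j [ZMOD d])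
    (k l : ℕ) (a : Fin k → Fin l → ℤ) (ha : ∀ i t, IsCoprime (a i t) (d : ℤ)) (t0 : Fin l)
    (h2 : ∀ i, a i t0 = 1 ∨ 2 ≤ |a i t0|) (hne : ∀ i i', i ≠ i' → a i t0 ≠ 1 → |a i t0| ≠ |a i' t0|) :
    (∃ δ K : ℝ, 0 < δ ∧ 0 < K ∧ ∀ (s : ℕ) (b : Fin k → ℤ) (C : ℤ), Prim d s (fun i => a i t0 ≠ 1) b → ∀ X Q : Fin l → ℕ, 1 ≤ Q t0 →
      (count X Q (fun n => value a b C n ∈ E d m r) : ℝ) ≤ K * 2 ^ s * (Q t0 : ℝ) ^ (-δ) * ∏ t, (Q t : ℝ)) ∧
    (∀ ε : ℝ, 0 < ε → ∃ δ K : ℝ, 0 < δ ∧ 0 < K ∧ ∀ (s : ℕ) (b : Fin k → ℤ) (C : ℤ), Prim d s (fun i => a i t0 ≠ 1) b →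
      ∀ X Q : Fin l → ℕ, 1 ≤ Q t0 →
      (count X Q (fun n => 0 < value a b C n ∧ ¬ (d : ℤ) ∣ value a b C n ∧
        ¬ ∃ j : ℕ, Defined d m r (value a b C n) j ∧ 0 < (H d m r)^[j] (value a b C n) ∧
          (((H d m r)^[j] (value a b C n) : ℤ) : ℝ) ≤ (value a b C n : ℝ) * (Q t0 : ℝ) ^ (-kappa d m + ε)) : ℝ) ≤
            K * 2 ^ s * (Q t0 : ℝ) ^ (-δ) * ∏ t, (Q t : ℝ)) ∧
    (∀ ε : ℝ, 0 < ε → ∃ δ K : ℝ, 0 < δ ∧ 0 < K ∧ ∀ (s : ℕ) (b : Fin k → ℤ) (C : ℤ), Prim d s (fun i => a i t0 ≠ 1) b →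
      ∀ X Q : Fin l → ℕ, 1 ≤ Q t0 →
      (count X Q (fun n => ¬ ∀ j : ℕ, (d : ℝ) ^ j ≤ (Q t0 : ℝ) →
        (Q t0 : ℝ) ^ (-ε) * (d : ℝ) ^ (-kappa d m * j) * |(value a b C n : ℝ)| ≤
          |(((T d m r)^[j] (value a b C n) : ℤ) : ℝ)| ∧
        |(((T d m r)^[j] (value a b C n) : ℤ) : ℝ)| ≤
          (Q t0 : ℝ) ^ ε * (d : ℝ) ^ (-kappa d m * j) * |(value a b C n : ℝ)|) : ℝ) ≤
          K * 2 ^ s * (Q t0 : ℝ) ^ (-δ) * ∏ t, (Q t : ℝ)) := by
  classical
  have hr' : ∀ j : ℤ, 1 ≤ j → j < d → (d : ℤ) ∣ m * j - r j := fun j h1 h2 => (hr j h1 h2).dvd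
  obtain ⟨c, hc1, hS⟩ := spread hd a ha t0 h2 hne
  refine ⟨?_, fun ε hε => ?_, fun ε hε => ?_⟩
  · obtain ⟨δ, K, hδ, hK, h⟩ := exc_seq hd hm hc hle hr' hc1
    exact ⟨δ, 2 * K, hδ, by positivity, fun s b C hb X Q hQ =>
      count_le a t0 (P := fun _ y => y ∈ E d m r) hS h s b C hb X Q hQ⟩
  · obtain ⟨δ, K, hδ, hK, h⟩ := desc_seq hd hm hc hle hr' hc1 hε
    refine ⟨δ, 2 * K, hδ, by positivity, fun s b C hb X Q hQ =>
      count_le a t0 (P := fun Y y => 0 < y ∧ ¬ (d : ℤ) ∣ y ∧ ¬ ∃ j : ℕ, Defined d m r y j ∧ 0 < (H d m r)^[j] y ∧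
          (((H d m r)^[j] y : ℤ) : ℝ) ≤ (y : ℝ) * Y ^ (-kappa d m + ε)) hS ?_ s b C hb X Q hQ⟩
    intro W f hW hf X Y hY A hA hE
    apply h W f hW hf X Y hY A hA
    intro n hn
    obtain ⟨h1, h2, h3⟩ := hE n hn
    refine ⟨h1, h2, fun k hk1 hk2 => ?_⟩
    by_contra hcon
    push Not at hcon
    exact h3 ⟨k, hk1, hk2, hcon⟩
  · obtain ⟨hκ0, hκ1⟩ := Mo.kap_bounds hd hm hc hle
    have D := Mo.data (r := r) hd hc hr'
    have hC := Mo.cls (m := m) (r := r) hd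
    have hmu := Mo.mu_kap hd D
    have hd0 : (0 : ℝ) < d := by exact_mod_cast (by omega : 0 < d)
    obtain ⟨δ, K, hδ, -, hK, h⟩ := law_main (Pool.Agent.H319R2.Leigh.gm_fac D) (Pool.Agent.H319R2.Leigh.gm_cls D hC)
      hc1 hκ0.le (by rw [hmu]; linarith) hκ1 hε
    refine ⟨δ, 2 * K, hδ, by positivity, fun s b C hb X Q hQ =>
      count_le a t0 (P := fun Y y => ¬ ∀ j : ℕ, (d : ℝ) ^ j ≤ Y →
        Y ^ (-ε) * (d : ℝ) ^ (-kappa d m * j) * |(y : ℝ)| ≤ |(((T d m r)^[j] y : ℤ) : ℝ)| ∧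
        |(((T d m r)^[j] y : ℤ) : ℝ)| ≤ Y ^ ε * (d : ℝ) ^ (-kappa d m * j) * |(y : ℝ)|) hS ?_ s b C hb X Q hQ⟩
    intro W f hW hf X Y hY A hA hE
    apply h W f hW hf X Y hY A hA
    intro n hn
    refine ⟨Mo.mem_S hd _, fun htyp => hE n hn fun j hj => ?_⟩
    have h1 := htyp j hj
    have hTT : (Pool.Agent.H319R2.Leigh.gm D).T = T d m r := by rw [Pool.Agent.H319R2.Leigh.gm_T, Mo.T_eq, T_eq]
    rw [hmu, hTT] at h1
    have hexp : Real.exp (j * (-Mo.kap d m * Real.log (Pool.Agent.H319R2.Leigh.gm D).d)) =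
        (d : ℝ) ^ (-kappa d m * j) := by
      rw [kappa_eq, Real.rpow_def_of_pos hd0]
      congr 1
      have : ((Pool.Agent.H319R2.Leigh.gm D).d : ℝ) = d := rfl
      rw [this]
      ring
    rw [hexp] at h1
    exact h1

end Pool.Agent.Results.MP_fd8838_nt.SUnitSums
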