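import Pool.Agent.T2H58.LU.Smo

set_option autoImplicit false

/-!
# Möller's exceptional sets and integer parts of smooth functions (Piatetski-Shapiro sequences)

Let `gcd(m, d) = 1`, `2 ≤ m ≤ d^(d/(d-1))`. The exceptional set `E(d, m, R)` contains at most `K X^(1 - δ)` of the first
`X` terms of the sequence `⌊f(n)⌋` for every smooth function `f` of polynomial growth which is not too close to a
polynomial, for instance `f(x) = α x^c + P(x)` with a real `c > 0` that is not an integer and any real polynomial `P` of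
degree at most `⌊c⌋ + 1`, or `f(x) = α x log x + β x + γ`; the bound is uniform in the polynomial `P`, and all but
`K X^(1 - δ)` of the terms satisfy the expected law for the first steps of the orbit.

Method. The `k`-th derivative test of van der Corput shows that a dyadic block `(X, 2X]` contains at most `C X / q`
integers `n` with `⌊f(n)⌋` in a given class modulo `q ≤ X^θ`. With `q = d^N`, large deviations for the residues modulo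
`d` of the first `N` terms of the `T`-orbit finish the proof.
-/

namespace Pool.Agent.Results.MP_fd8838_nt.SmoothSequences

open Polynomial
open Pool.Agent.T2H58.LU Pool.Agent.Y927.GP

/-- The generalised Hasse-Syracuse map `H(x) = (m x - r_j) / d ^ a(x)`, where `j` is the residue of
`x` modulo `d` and `d ^ a(x)` is the largest power of `d` dividing `m x - r_j`. -/
noncomputable def H (d m : ℕ) (r : ℤ → ℤ) (x : ℤ) : ℤ :=
  (m * x - r (x % d)) / (d : ℤ) ^ multiplicity (d : ℤ) (m * x - r (x % d))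

/-- The map `T(x) = (m x - r_j) / d` for `x ≡ j` modulo `d`, `1 ≤ j ≤ d - 1`, and `T(x) = x / d` if `d` divides `x`. -/
def T (d m : ℕ) (r : ℤ → ℤ) (x : ℤ) : ℤ := if x % d = 0 then x / d else (m * x - r (x % d)) / d

/-- The iterate `H^k(y)` is defined: the orbit does not stop before (it stops at `z` if
`m z ≤ r_j`, where `z ≡ j` modulo `d`). -/
def Defined (d m : ℕ) (r : ℤ → ℤ) (y : ℤ) (k : ℕ) : Prop :=
  ∀ i < k, r ((H d m r)^[i] y % d) < m * (H d m r)^[i] y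

/-- The exceptional set `E(d, m, R)`: the positive integers `n` not divisible by `d` such that
`H^k(n) ≥ n` for all `k ≥ 1` for which `H^k(n)` is defined. -/
def E (d m : ℕ) (r : ℤ → ℤ) : Set ℤ :=
  {n | 0 < n ∧ ¬ (d : ℤ) ∣ n ∧ ∀ k, 1 ≤ k → Defined d m r n k → n ≤ (H d m r)^[k] n}

/-- `κ = 1 - (d - 1) / d * log m / log d`, a number with `0 < κ < 1` if `2 ≤ m ≤ d^(d/(d-1))`. -/
noncomputable def kappa (d m : ℕ) : ℝ := 1 - ((d : ℝ) - 1) / d * (Real.log m / Real.log d)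

/-- `f` is `k` times differentiable at all `x ≥ x₀` (with derivatives `F 0 = f`, `F 1`, ..., `F k`), and `f^(k)` or
`-f^(k)` is nonincreasing on `[x₀, ∞)`, between `x ^ (-2 + η)` and `x ^ (-η)`, and at most `A` times its value at
`2 x`. -/
def Regular (k : ℕ) (x₀ η A : ℝ) (f : ℝ → ℝ) : Prop :=
  ∃ F : ℕ → ℝ → ℝ, F 0 = f ∧ (∀ j < k, ∀ x, x₀ ≤ x → HasDerivAt (F j) (F (j + 1) x) x) ∧
    ∃ s : ℝ, (s = 1 ∨ s = -1) ∧ (∀ x, x₀ ≤ x → x ^ (-2 + η) ≤ s * F k x ∧ s * F k x ≤ x ^ (-η) ∧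
      s * F k x ≤ A * (s * F k (2 * x))) ∧ ∀ x y, x₀ ≤ x → x ≤ y → s * F k y ≤ s * F k x

theorem H_eq (d m : ℕ) (r : ℤ → ℤ) : H d m r = Mo.H d m r := rfl

theorem T_eq (d m : ℕ) (r : ℤ → ℤ) : T d m r = Mo.T d m r := rfl

theorem E_eq (d m : ℕ) (r : ℤ → ℤ) : E d m r = Mo.E d m r := rfl

theorem kappa_eq (d m : ℕ) : kappa d m = Mo.kap d m := rfl

/-- **Main theorem.** Let `gcd(m, d) = 1`, `2 ≤ m ≤ d^(d/(d-1))` and let `R` be admissible.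
A. Let `k ≥ 2`, `x₀`, `0 < η < 1`, `A ≥ 1`. There is `θ > 0` such that the following holds uniformly for all functions
`f` with `Regular k x₀ η A f`.
1. There are `δ, K > 0` with: for all `X ≥ 1`, at most `K X^(1 - δ)` integers `1 ≤ n ≤ X` satisfy
`⌊f(n)⌋ ∈ E(d, m, R)`.
2. There are `δ, K > 0` with: for all `X ≥ 1` and all but at most `K X^(1 - δ)` of the integers `1 ≤ n ≤ X` for which
`v = ⌊f(n)⌋` is positive and not divisible by `d`, the `H`-orbit of `v` has a term `0 < H^j(v) ≤ v n^(-κ θ)`.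
3. For every `ε > 0` there are `δ, K > 0` with: for all `X ≥ 1` and all but at most `K X^(1 - δ)` of the integers
`1 ≤ n ≤ X`, `v = ⌊f(n)⌋` satisfies `n^(-ε) d^(-κ j) |v| ≤ |T^j(v)| ≤ n^ε d^(-κ j) |v|` for all `j` with `d^j ≤ n^θ`.
B. If `α ≠ 0` and `c > 0` are real and `c` is not an integer then there are `x₀` and `0 < η < 1` such that for all
polynomials `P` with real coefficients of degree at most `⌊c⌋ + 1` the function `α x^c + P(x)` is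
`Regular (⌊c⌋ + 2) x₀ η 4`; if `α ≠ 0` is real then there is `x₀` such that all functions `α x log x + β x + γ` are
`Regular 2 x₀ (1/2) 4`. -/
theorem result (d m : ℕ) (hd : 2 ≤ d) (hm : 2 ≤ m) (hc : Nat.Coprime m d)
    (hle : (m : ℝ) ≤ (d : ℝ) ^ ((d : ℝ) / ((d : ℝ) - 1))) (r : ℤ → ℤ)
    (hr : ∀ j : ℤ, 1 ≤ j → j < d → r j ≡ m * j [ZMOD d]) :
    (∀ k : ℕ, 2 ≤ k → ∀ x₀ η A : ℝ, 0 < η → η < 1 → 1 ≤ A → ∃ θ : ℝ, 0 < θ ∧
      (∃ δ K : ℝ, 0 < δ ∧ 0 < K ∧ ∀ f : ℝ → ℝ, Regular k x₀ η A f → ∀ X : ℝ, 1 ≤ X →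
        ({n : ℕ | 1 ≤ n ∧ (n : ℝ) ≤ X ∧ ⌊f n⌋ ∈ E d m r}.ncard : ℝ) ≤ K * X ^ (1 - δ)) ∧
      (∃ δ K : ℝ, 0 < δ ∧ 0 < K ∧ ∀ f : ℝ → ℝ, Regular k x₀ η A f → ∀ X : ℝ, 1 ≤ X →
        ({n : ℕ | 1 ≤ n ∧ (n : ℝ) ≤ X ∧ (0 < ⌊f n⌋ ∧ ¬ (d : ℤ) ∣ ⌊f n⌋ ∧
          ¬ ∃ j : ℕ, Defined d m r ⌊f n⌋ j ∧ 0 < (H d m r)^[j] ⌊f n⌋ ∧
            (((H d m r)^[j] ⌊f n⌋ : ℤ) : ℝ) ≤ ⌊f n⌋ * (n : ℝ) ^ (-(kappa d m * θ)))}.ncard : ℝ) ≤ K * X ^ (1 - δ)) ∧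
      (∀ ε : ℝ, 0 < ε → ∃ δ K : ℝ, 0 < δ ∧ 0 < K ∧ ∀ f : ℝ → ℝ, Regular k x₀ η A f → ∀ X : ℝ, 1 ≤ X →
        ({n : ℕ | 1 ≤ n ∧ (n : ℝ) ≤ X ∧ ¬ ∀ j : ℕ, (d : ℝ) ^ j ≤ (n : ℝ) ^ θ →
          (n : ℝ) ^ (-ε) * (d : ℝ) ^ (-kappa d m * j) * |((⌊f n⌋ : ℤ) : ℝ)| ≤ |(((T d m r)^[j] ⌊f n⌋ : ℤ) : ℝ)| ∧
          |(((T d m r)^[j] ⌊f n⌋ : ℤ) : ℝ)| ≤ (n : ℝ) ^ ε * (d : ℝ) ^ (-kappa d m * j) * |((⌊f n⌋ : ℤ) : ℝ)|}.ncard : ℝ) ≤
            K * X ^ (1 - δ))) ∧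
    (∀ α c : ℝ, α ≠ 0 → 0 < c → (∀ n : ℕ, c ≠ n) → ∃ x₀ η : ℝ, 0 < η ∧ η < 1 ∧ ∀ P : ℝ[X],
      P.natDegree ≤ ⌊c⌋₊ + 1 → Regular (⌊c⌋₊ + 2) x₀ η 4 (fun x => α * x ^ c + P.eval x)) ∧
    (∀ α : ℝ, α ≠ 0 → ∃ x₀ : ℝ, ∀ β γ : ℝ, Regular 2 x₀ (1 / 2) 4 (fun x => α * (x * Real.log x) + β * x + γ)) := by
  classical
  have hr' : ∀ j : ℤ, 1 ≤ j → j < d → (d : ℤ) ∣ m * j - r j := fun j h1 h2 => (hr j h1 h2).dvd
  refine ⟨?_, fun α c hα hc hcn => regular_rpow α hα c hc hcn, fun α hα => regular_log α hα⟩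
  intro k hk x₀ η A hη hη1 hA
  obtain ⟨θ, hθ, hθ1, hmain⟩ := smooth_main d hd k hk x₀ η hη hη1 A hA
  obtain ⟨hκ0, hκ1⟩ := Mo.kap_bounds hd hm hc hle
  have hd0 : (0 : ℝ) < d := by exact_mod_cast (by omega : 0 < d)
  have hsq : ∀ (X n : ℕ), 2 ≤ X → n ≤ 2 * X → (n : ℝ) ≤ (X : ℝ) ^ (2 : ℝ) := by
    intro X n h1 h2
    have h3 : n ≤ X ^ 2 := by nlinarith
    have h4 : (n : ℝ) ≤ (X : ℝ) ^ 2 := by exact_mod_cast h3
    rwa [← Real.rpow_natCast] at h4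
  refine ⟨θ / 4, by positivity, ?_, ?_, ?_⟩
  · obtain ⟨δ, K, hδ, hδ1, hK, h⟩ := exc_cls hd hm hc hle hr'
    exact hmain (fun _ v => v ∈ E d m r) ⟨δ, K, hδ, hδ1, hK, h⟩ (fun _ v => v ∈ E d m r) fun _ _ _ _ _ _ h => h
  · obtain ⟨δ, K, hδ, hδ1, hK, h⟩ := desc_cls hd hm hc hle hr' (ε := kappa d m / 2) (by rw [kappa_eq]; linarith)
    refine hmain (fun Y v => 0 < v ∧ ¬ (d : ℤ) ∣ v ∧ ∀ k : ℕ, Mo.Def d m r v k → 0 < (Mo.H d m r)^[k] v →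
          (v : ℝ) * Y ^ (-Mo.kap d m + kappa d m / 2) < (((Mo.H d m r)^[k] v : ℤ) : ℝ)) ⟨δ, K, hδ, hδ1, hK, h⟩
      (fun n v => 0 < v ∧ ¬ (d : ℤ) ∣ v ∧
          ¬ ∃ j : ℕ, Defined d m r v j ∧ 0 < (H d m r)^[j] v ∧
            (((H d m r)^[j] v : ℤ) : ℝ) ≤ v * (n : ℝ) ^ (-(kappa d m * (θ / 4)))) ?_
    rintro X n v hX h1 h2 ⟨h3, h4, h5⟩
    refine ⟨h3, h4, fun j hj1 hj2 => ?_⟩
    by_contra hcon
    push Not at hcon
    apply h5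
    refine ⟨j, hj1, hj2, hcon.trans ?_⟩
    have hv : (0 : ℝ) < v := by exact_mod_cast h3
    apply mul_le_mul_of_nonneg_left _ hv.le
    have hX0 : (0 : ℝ) < X := by exact_mod_cast (by omega : 0 < X)
    have hn0 : (0 : ℝ) < n := by exact_mod_cast (by omega : 0 < n)
    have h6 := hsq X n hX h2
    have h7 : (n : ℝ) ^ (kappa d m * (θ / 4)) ≤ (X : ℝ) ^ (θ * (kappa d m / 2)) := by
      calc (n : ℝ) ^ (kappa d m * (θ / 4)) ≤ ((X : ℝ) ^ (2 : ℝ)) ^ (kappa d m * (θ / 4)) :=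
            Real.rpow_le_rpow hn0.le h6 (by rw [kappa_eq]; positivity)
        _ = (X : ℝ) ^ (θ * (kappa d m / 2)) := by rw [← Real.rpow_mul hX0.le]; congr 1; ring
    rw [← Real.rpow_mul hX0.le, ← kappa_eq]
    have e : θ * (-kappa d m + kappa d m / 2) = -(θ * (kappa d m / 2)) := by ring
    rw [e, Real.rpow_neg hX0.le, Real.rpow_neg hn0.le]
    exact inv_anti₀ (by positivity) h7
  · intro ε hε
    have D := Mo.data (r := r) hd hc hr'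
    have hC := Mo.cls (m := m) (r := r) hd
    have hmu := Mo.mu_kap hd D
    obtain ⟨δ, K, hδ, hδ1, hK, h⟩ := law_cls (Pool.Agent.H319R2.Leigh.gm_fac D) (Pool.Agent.H319R2.Leigh.gm_cls D hC)
      hκ0.le (by rw [hmu]; linarith) hκ1 hε
    refine hmain (fun Y v => v ∈ (Pool.Agent.H319R2.Leigh.gm D).SC _ ∧ ¬ Typ (Pool.Agent.H319R2.Leigh.gm D) _ ε Y v)
      ⟨δ, K, hδ, hδ1, hK, h⟩ (fun n v => ¬ ∀ j : ℕ, (d : ℝ) ^ j ≤ (n : ℝ) ^ (θ / 4) →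
          (n : ℝ) ^ (-ε) * (d : ℝ) ^ (-kappa d m * j) * |((v : ℤ) : ℝ)| ≤ |(((T d m r)^[j] v : ℤ) : ℝ)| ∧
          |(((T d m r)^[j] v : ℤ) : ℝ)| ≤ (n : ℝ) ^ ε * (d : ℝ) ^ (-kappa d m * j) * |((v : ℤ) : ℝ)|) ?_
    intro X n v hX h1 h2 h3
    refine ⟨Mo.mem_S hd _, fun htyp => h3 fun j hj => ?_⟩
    have hX0 : (0 : ℝ) < X := by exact_mod_cast (by omega : 0 < X)
    have hX1 : (1 : ℝ) ≤ X := by exact_mod_cast (by omega : 1 ≤ X)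
    have hn0 : (0 : ℝ) < n := by exact_mod_cast (by omega : 0 < n)
    have hXn : (X : ℝ) ≤ n := by exact_mod_cast h1.le
    have h6 := hsq X n hX h2
    have hj' : (d : ℝ) ^ j ≤ (X : ℝ) ^ θ := by
      refine hj.trans ?_
      calc (n : ℝ) ^ (θ / 4) ≤ ((X : ℝ) ^ (2 : ℝ)) ^ (θ / 4) := Real.rpow_le_rpow hn0.le h6 (by positivity)
        _ = (X : ℝ) ^ (θ / 2) := by rw [← Real.rpow_mul hX0.le]; congr 1; ring
        _ ≤ (X : ℝ) ^ θ := Real.rpow_le_rpow_of_exponent_le hX1 (by linarith)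
    have h7 := htyp j hj'
    have hTT : (Pool.Agent.H319R2.Leigh.gm D).T = T d m r := by rw [Pool.Agent.H319R2.Leigh.gm_T, Mo.T_eq, T_eq]
    rw [hmu, hTT] at h7
    have hexp : Real.exp (j * (-Mo.kap d m * Real.log (Pool.Agent.H319R2.Leigh.gm D).d)) =
        (d : ℝ) ^ (-kappa d m * j) := by
      rw [kappa_eq, Real.rpow_def_of_pos hd0]
      congr 1
      have : ((Pool.Agent.H319R2.Leigh.gm D).d : ℝ) = d := rfl
      rw [this]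
      ring
    rw [hexp] at h7
    have h8 : ((X : ℝ) ^ θ) ^ ε ≤ (n : ℝ) ^ ε := by
      apply Real.rpow_le_rpow (by positivity) _ hε.le
      calc (X : ℝ) ^ θ ≤ (X : ℝ) ^ (1 : ℝ) := Real.rpow_le_rpow_of_exponent_le hX1 hθ1
        _ = X := Real.rpow_one _
        _ ≤ n := hXn
    have h9 : (n : ℝ) ^ (-ε) ≤ ((X : ℝ) ^ θ) ^ (-ε) := by
      rw [Real.rpow_neg hn0.le, Real.rpow_neg (by positivity)]
      exact inv_anti₀ (by positivity) h8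
    refine ⟨le_trans ?_ h7.1, h7.2.trans ?_⟩ <;> gcongr

end Pool.Agent.Results.MP_fd8838_nt.SmoothSequences
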