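import Pool.Agent.T2H58.LU.Mo
import Pool.Agent.T2H58.LU.Poly

set_option autoImplicit false

/-!
# Möller's exceptional sets and polynomials: uniformity in the coefficients

Let `gcd(m, d) = 1`, `2 ≤ m ≤ d^(d/(d-1))`. The bounds for the number of the integers `n` of an interval of length `Y`
for which `f n` is in the exceptional set `E(d, m, R)`, or for which the orbit of `f n` does not follow the expected law,
hold uniformly for ALL polynomials `f` with integer coefficients of degree at most `D`, up to the factor `2 ^ s`, where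
`s` is such that no `p ^ (s + 1)`, `p` a prime divisor of `d`, divides all nonconstant coefficients of `f`. In particular
(`s = 0`) the constants are absolute for the polynomials of degree `D` whose leading coefficient is coprime to `d`, for
instance for all arithmetic progressions `a + q n` with `gcd(q, d) = 1`: the exceptional set contains no long arithmetic
or polynomial progressions of this kind, and all of them contain few of its elements.

Method. Large deviations for the residues modulo `d` of the first `N` terms of the `T`-orbit, and the spread of the values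
of `f` modulo `d^N`. If `p^j` does not divide `f' n`, then `p^N ∣ f (n + p^j t) - f n` implies `p^N ∣ p^(2 j) t`; and a
division algorithm shows that a block of length `2^l` contains at most `D` integers `n` with `p^j ∣ f' n` if
`j ≥ s + 1 + D + D l`, whatever the coefficients of `f` are.
-/

namespace Pool.Agent.Results.MP_fd8838_nt.UniformPolynomials

open Polynomial
open Pool.Agent.T2H58.LU Pool.Agent.Y927.GP

/-- The generalised Hasse-Syracuse map `H(x) = (m x - r_j) / d ^ a(x)`, where `j` is the residue of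
`x` modulo `d` and `d ^ a(x)` is the largest power of `d` dividing `m x - r_j`. -/
noncomputable def H (d m : ℕ) (r : ℤ → ℤ) (x : ℤ) : ℤ :=
  (m * x - r (x % d)) / (d : ℤ) ^ multiplicity (d : ℤ) (m * x - r (x % d))

/-- The map `T(x) = (m x - r_j) / d` for `x ≡ j` modulo `d`, `1 ≤ j ≤ d - 1`, and `T(x) = x / d` if `d` divides `x`. -/
def T (d m : ℕ) (r : ℤ → ℤ) (x : ℤ) : ℤ := if x % d = 0 then x / d else (m * x - r (x % d)) / d

/-- The iterate `H^k(y)` is defined: the orbit does not stop before (it stops at `z` if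
`m z ≤ r_j`, where `z ≡ j` modulo `d`). -/
def Defined (d m : ℕ) (r : ℤ → ℤ) (y : ℤ) (k : ℕ) : Prop :=
  ∀ i < k, r ((H d m r)^[i] y % d) < m * (H d m r)^[i] y

/-- The exceptional set `E(d, m, R)`: the positive integers `n` not divisible by `d` such that
`H^k(n) ≥ n` for all `k ≥ 1` for which `H^k(n)` is defined. -/
def E (d m : ℕ) (r : ℤ → ℤ) : Set ℤ :=
  {n | 0 < n ∧ ¬ (d : ℤ) ∣ n ∧ ∀ k, 1 ≤ k → Defined d m r n k → n ≤ (H d m r)^[k] n}

/-- `κ = 1 - (d - 1) / d * log m / log d`, a number with `0 < κ < 1` if `2 ≤ m ≤ d^(d/(d-1))`. -/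
noncomputable def kappa (d m : ℕ) : ℝ := 1 - ((d : ℝ) - 1) / d * (Real.log m / Real.log d)

/-- `f` has degree at most `D`, and for every prime divisor `p` of `d` some nonconstant coefficient of `f` is not
divisible by `p ^ (s + 1)`. -/
def Admits (d D s : ℕ) (f : ℤ[X]) : Prop :=
  f.natDegree ≤ D ∧ ∀ p : ℕ, p.Prime → p ∣ d → ∃ i, 1 ≤ i ∧ ¬ (p : ℤ) ^ (s + 1) ∣ f.coeff i

theorem H_eq (d m : ℕ) (r : ℤ → ℤ) : H d m r = Mo.H d m r := rfl

theorem T_eq (d m : ℕ) (r : ℤ → ℤ) : T d m r = Mo.T d m r := rfl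

theorem E_eq (d m : ℕ) (r : ℤ → ℤ) : E d m r = Mo.E d m r := rfl

theorem kappa_eq (d m : ℕ) : kappa d m = Mo.kap d m := rfl

theorem ncard_int {P : ℤ → Prop} {X : ℤ} {Y K : ℝ}
    (h : ∀ A : Finset ℕ, A ⊆ Finset.Ioc 0 (0 + ⌊Y⌋₊) → (∀ n ∈ A, P (X + n)) → (A.card : ℝ) ≤ K) :
    ({n : ℤ | X < n ∧ (n : ℝ) ≤ X + Y ∧ P n}.ncard : ℝ) ≤ K := by
  classical
  have hsub : {n : ℤ | X < n ∧ (n : ℝ) ≤ X + Y ∧ P n} ⊆
      (((Finset.Ioc 0 (0 + ⌊Y⌋₊)).filter (fun n : ℕ => P (X + n))).image (fun n : ℕ => X + (n : ℤ)) : Finset ℤ) := by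
    rintro n ⟨h1, h2, h3⟩
    rw [Finset.mem_coe, Finset.mem_image]
    have e : ((n - X).toNat : ℤ) = n - X := Int.toNat_of_nonneg (by omega)
    refine ⟨(n - X).toNat, ?_, by rw [e]; ring⟩
    rw [Finset.mem_filter, Finset.mem_Ioc]
    refine ⟨⟨by omega, ?_⟩, by rw [e]; convert h3 using 1; ring⟩
    rw [zero_add]
    apply Nat.le_floor
    have e2 : (((n - X).toNat : ℕ) : ℝ) = ((n - X : ℤ) : ℝ) := by rw [← e]; push_cast; rfl
    rw [e2]
    push_cast
    linarith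
  have h1 := Set.ncard_le_ncard hsub (Finset.finite_toSet _)
  rw [Set.ncard_coe_finset] at h1
  have h2 := h1.trans Finset.card_image_le
  have h3 : ({n : ℤ | X < n ∧ (n : ℝ) ≤ X + Y ∧ P n}.ncard : ℝ) ≤
      (((Finset.Ioc 0 (0 + ⌊Y⌋₊)).filter (fun n : ℕ => P (X + n))).card : ℝ) := by exact_mod_cast h2
  refine h3.trans (h _ (Finset.filter_subset _ _) fun n hn => (Finset.mem_filter.1 hn).2)

theorem spread {d : ℕ} (hd : 2 ≤ d) (D : ℕ) : ∃ c : ℕ, 1 ≤ c ∧ ∀ (s : ℕ) (f : ℤ[X]), Admits d D s f → ∀ X : ℤ,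
    SprU d c (2 ^ s) (fun n => f.eval (X + n)) := by
  obtain ⟨c, hc, h⟩ := spr_of_loc hd (fun _ => 1) (fun _ => 2 * D + 2) (fun _ => le_rfl) (fun _ => by omega)
  refine ⟨c, hc, fun s f hf X => h (2 ^ s) _ Nat.one_le_two_pow fun p hp hpd => ?_⟩
  have : Fact p.Prime := ⟨hp⟩
  exact loc_poly hf.1 (hf.2 p hp hpd) X

/-- **Main theorem.** Let `gcd(m, d) = 1`, `2 ≤ m ≤ d^(d/(d-1))`, let `R` be admissible and `D ≥ 0`.
1. There are `δ, K > 0` such that for all `s`, all polynomials `f` with integer coefficients of degree at most `D`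
such that no `p ^ (s + 1)`, `p` a prime divisor of `d`, divides all nonconstant coefficients of `f`, and all intervals
`(X, X + Y]`, `Y ≥ 1`, at most `K 2^s Y^(1 - δ)` integers `n` of the interval satisfy `f n ∈ E(d, m, R)`.
2. For every `ε > 0` there are `δ, K > 0` such that for all these `s`, `f` and intervals, for all but at most
`K 2^s Y^(1 - δ)` of the integers `n` of the interval for which `f n` is positive and not divisible by `d`, the `H`-orbit
of `f n` has a term `0 < H^k(f n) ≤ f n Y^(-κ + ε)`.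
3. For every `ε > 0` there are `δ, K > 0` such that for all these `s`, `f` and intervals, for all but at most
`K 2^s Y^(1 - δ)` of the integers `n` of the interval, `Y^(-ε) d^(-κ j) |f n| ≤ |T^j(f n)| ≤ Y^ε d^(-κ j) |f n|` for all
`j` with `d^j ≤ Y`. -/
theorem result (d m : ℕ) (hd : 2 ≤ d) (hm : 2 ≤ m) (hc : Nat.Coprime m d)
    (hle : (m : ℝ) ≤ (d : ℝ) ^ ((d : ℝ) / ((d : ℝ) - 1))) (r : ℤ → ℤ)
    (hr : ∀ j : ℤ, 1 ≤ j → j < d → r j ≡ m * j [ZMOD d]) (D : ℕ) :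
    (∃ δ K : ℝ, 0 < δ ∧ 0 < K ∧ ∀ (s : ℕ) (f : ℤ[X]), Admits d D s f → ∀ (X : ℤ) (Y : ℝ), 1 ≤ Y →
      ({n : ℤ | X < n ∧ (n : ℝ) ≤ X + Y ∧ f.eval n ∈ E d m r}.ncard : ℝ) ≤ K * 2 ^ s * Y ^ (1 - δ)) ∧
    (∀ ε : ℝ, 0 < ε → ∃ δ K : ℝ, 0 < δ ∧ 0 < K ∧ ∀ (s : ℕ) (f : ℤ[X]), Admits d D s f → ∀ (X : ℤ) (Y : ℝ), 1 ≤ Y →
      ({n : ℤ | X < n ∧ (n : ℝ) ≤ X + Y ∧ (0 < f.eval n ∧ ¬ (d : ℤ) ∣ f.eval n ∧
        ¬ ∃ k : ℕ, Defined d m r (f.eval n) k ∧ 0 < (H d m r)^[k] (f.eval n) ∧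
          (((H d m r)^[k] (f.eval n) : ℤ) : ℝ) ≤ f.eval n * Y ^ (-kappa d m + ε))}.ncard : ℝ) ≤
            K * 2 ^ s * Y ^ (1 - δ)) ∧
    (∀ ε : ℝ, 0 < ε → ∃ δ K : ℝ, 0 < δ ∧ 0 < K ∧ ∀ (s : ℕ) (f : ℤ[X]), Admits d D s f → ∀ (X : ℤ) (Y : ℝ), 1 ≤ Y →
      ({n : ℤ | X < n ∧ (n : ℝ) ≤ X + Y ∧ ¬ ∀ j : ℕ, (d : ℝ) ^ j ≤ Y →
        Y ^ (-ε) * (d : ℝ) ^ (-kappa d m * j) * |((f.eval n : ℤ) : ℝ)| ≤ |(((T d m r)^[j] (f.eval n) : ℤ) : ℝ)| ∧
        |(((T d m r)^[j] (f.eval n) : ℤ) : ℝ)| ≤ Y ^ ε * (d : ℝ) ^ (-kappa d m * j) * |((f.eval n : ℤ) : ℝ)|}.ncard : ℝ) ≤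
          K * 2 ^ s * Y ^ (1 - δ)) := by
  classical
  have hr' : ∀ j : ℤ, 1 ≤ j → j < d → (d : ℤ) ∣ m * j - r j := fun j h1 h2 => (hr j h1 h2).dvd
  obtain ⟨c, hc1, hS⟩ := spread hd D
  refine ⟨?_, fun ε hε => ?_, fun ε hε => ?_⟩
  · obtain ⟨δ, K, hδ, hK, h⟩ := exc_seq hd hm hc hle hr' hc1
    refine ⟨δ, K, hδ, hK, fun s f hf X Y hY => ncard_int (P := fun n : ℤ => f.eval n ∈ E d m r) fun A hA hE => ?_⟩
    have h1 := h (2 ^ s) _ Nat.one_le_two_pow (hS s f hf X) 0 Y hY A hA hE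
    push_cast at h1
    exact h1
  · obtain ⟨δ, K, hδ, hK, h⟩ := desc_seq hd hm hc hle hr' hc1 hε
    refine ⟨δ, K, hδ, hK, fun s f hf X Y hY => ncard_int (P := fun n : ℤ => 0 < f.eval n ∧ ¬ (d : ℤ) ∣ f.eval n ∧
        ¬ ∃ k : ℕ, Defined d m r (f.eval n) k ∧ 0 < (H d m r)^[k] (f.eval n) ∧
          (((H d m r)^[k] (f.eval n) : ℤ) : ℝ) ≤ f.eval n * Y ^ (-kappa d m + ε)) fun A hA hE => ?_⟩
    have h1 := h (2 ^ s) _ Nat.one_le_two_pow (hS s f hf X) 0 Y hY A hA (by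
      intro n hn
      obtain ⟨h1, h2, h3⟩ := hE n hn
      refine ⟨h1, h2, fun k hk1 hk2 => ?_⟩
      by_contra hcon
      push Not at hcon
      exact h3 ⟨k, hk1, hk2, hcon⟩)
    push_cast at h1
    exact h1
  · obtain ⟨hκ0, hκ1⟩ := Mo.kap_bounds hd hm hc hle
    have D := Mo.data (r := r) hd hc hr'
    have hC := Mo.cls (m := m) (r := r) hd
    have hmu := Mo.mu_kap hd D
    have hd0 : (0 : ℝ) < d := by exact_mod_cast (by omega : 0 < d)
    obtain ⟨δ, K, hδ, -, hK, h⟩ := law_main (Pool.Agent.H319R2.Leigh.gm_fac D) (Pool.Agent.H319R2.Leigh.gm_cls D hC)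
      hc1 hκ0.le (by rw [hmu]; linarith) hκ1 hε
    refine ⟨δ, K, hδ, hK, fun s f hf X Y hY => ncard_int (P := fun n : ℤ => ¬ ∀ j : ℕ, (d : ℝ) ^ j ≤ Y →
        Y ^ (-ε) * (d : ℝ) ^ (-kappa d m * j) * |((f.eval n : ℤ) : ℝ)| ≤ |(((T d m r)^[j] (f.eval n) : ℤ) : ℝ)| ∧
        |(((T d m r)^[j] (f.eval n) : ℤ) : ℝ)| ≤ Y ^ ε * (d : ℝ) ^ (-kappa d m * j) * |((f.eval n : ℤ) : ℝ)|)
        fun A hA hE => ?_⟩
    have h1 := h (2 ^ s) _ Nat.one_le_two_pow (hS s f hf X) 0 Y hY A hA (by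
      intro n hn
      refine ⟨Mo.mem_S hd _, fun htyp => hE n hn fun j hj => ?_⟩
      have h1 := htyp j hj
      have hTT : (Pool.Agent.H319R2.Leigh.gm D).T = T d m r := by rw [Pool.Agent.H319R2.Leigh.gm_T, Mo.T_eq, T_eq]
      rw [hmu, hTT] at h1
      have hexp : Real.exp (j * (-Mo.kap d m * Real.log (Pool.Agent.H319R2.Leigh.gm D).d)) =
          (d : ℝ) ^ (-kappa d m * j) := by
        rw [kappa_eq, Real.rpow_def_of_pos hd0]
        congr 1
        have : ((Pool.Agent.H319R2.Leigh.gm D).d : ℝ) = d := rfl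
        rw [this]
        ring
      rw [hexp] at h1
      exact h1)
    push_cast at h1
    exact h1

end Pool.Agent.Results.MP_fd8838_nt.UniformPolynomials
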